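import Mathlib
import Pool.Agent.H749Z.PS.DefsAlg
import Pool.Agent.H749Z.PS.Alg

set_option autoImplicit false

open scoped Cardinal

namespace Pool.Agent.Results.MP_30394b_an.AStrongAlg

open H749Z.PS

/-- For `𝕂 = ℝ` and `𝕂 = ℂ` there is an algebraically independent set `S ⊆ C([0,1])` of
cardinality continuum, which is a minimal system of generators of the (non-unital) algebra it
generates, such that every nonzero element of that algebra lies in `PS([0,1])`. -/
theorem result (𝕂 : Type) [RCLike 𝕂] : ∃ S : Set C(I, 𝕂), #S = 𝔠 ∧ AlgIndep S ∧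
    (∀ T, T ⊂ S → NonUnitalAlgebra.adjoin 𝕂 T ≠ NonUnitalAlgebra.adjoin 𝕂 S) ∧
    ∀ h ∈ NonUnitalAlgebra.adjoin 𝕂 S, h ≠ 0 → h ∈ PSset 𝕂 :=
  main_alg 𝕂

end Pool.Agent.Results.MP_30394b_an.AStrongAlg
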